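import Pool.Agent.W2helper56.PK.Stm

/-!
# Pieces B1, B2, B3: measure and topology of the random oracle
-/

set_option autoImplicit false

namespace Pool.Agent.W2helper24.PK

open Pool.Agent.NPC Pool.Agent.H620R2.Gauge Pool.Agent.W2helper56.PK MeasureTheory Filter Topology

/-- the strings of length less than `m` -/
noncomputable def shorts (m : ℕ) : Finset (List Bool) := (List.finite_length_lt Bool m).toFinset

theorem mem_shorts {m : ℕ} {u : List Bool} : u ∈ shorts m ↔ u.length < m := by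
  simp [shorts]

/-- the oracles with given values at the elements of `s` -/
def fixS (s : Finset (List Bool)) (Λ : Oracle) : Set Oracle := {R | ∀ u ∈ s, R u = Λ u}

theorem fixS_eq (s : Finset (List Bool)) (Λ : Oracle) :
    fixS s Λ = Set.pi (s : Set (List Bool)) (fun u => {Λ u}) := by
  ext R
  simp [fixS, Set.mem_pi]

theorem ranO_fixS (s : Finset (List Bool)) (Λ : Oracle) :
    ranO (fixS s Λ) = (2⁻¹ : ENNReal) ^ s.card := by
  rw [fixS_eq]
  have h2 : ranO (Set.pi (s : Set (List Bool)) (fun u => {Λ u})) = ∏ y ∈ s, coinM {Λ y} :=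
    Measure.infinitePi_pi (fun _ : List Bool => coinM) (s := s) (t := fun u => {Λ u})
      (fun i _ => MeasurableSet.singleton _)
  rw [h2, Finset.prod_congr rfl (fun y _ => coinM_singleton _), Finset.prod_const]

theorem meas_fixS (s : Finset (List Bool)) (Λ : Oracle) : MeasurableSet (fixS s Λ) := by
  rw [fixS_eq]
  exact MeasurableSet.pi s.countable_toSet fun u _ => MeasurableSet.singleton _

theorem cyl_eq (Λ : Oracle) (t : ℕ) : cyl Λ t = fixS (shorts t) Λ := by
  ext R
  simp only [cyl, fixS, Set.mem_setOf_eq, mem_shorts]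

theorem meas_cyl (Λ : Oracle) (t : ℕ) : MeasurableSet (cyl Λ t) := by
  rw [cyl_eq]; exact meas_fixS _ _

theorem ext_of_lt {t m : ℕ} (Λ : Oracle) (ω : Pos t m → Bool) {u : List Bool} (h : u.length < t) :
    ext Λ ω u = Λ u := by
  unfold ext
  rw [dif_neg]
  omega

theorem ext_pos {t m : ℕ} (Λ : Oracle) (ω : Pos t m → Bool) (u : Pos t m) :
    ext Λ ω u.1 = ω u := by
  unfold ext
  rw [dif_pos u.2]
  rfl

/-- The small cylinders. -/
def sc {t m : ℕ} (Λ : Oracle) (ω : Pos t m → Bool) : Set Oracle :=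
  fixS (shorts (max t m)) (ext Λ ω)

theorem sc_disj {t m : ℕ} (Λ : Oracle) {ω ω' : Pos t m → Bool} (h : ω ≠ ω') :
    Disjoint (sc Λ ω) (sc Λ ω') := by
  rw [Set.disjoint_left]
  intro R h1 h2
  apply h
  funext u
  have hu : u.1 ∈ shorts (max t m) := mem_shorts.2 (lt_of_lt_of_le u.2.2 (le_max_right _ _))
  rw [← ext_pos Λ ω u, ← ext_pos Λ ω' u, ← h1 _ hu, ← h2 _ hu]

theorem mem_sc {t m : ℕ} {Λ R : Oracle} (h : R ∈ cyl Λ t) :
    R ∈ sc Λ (fun u : Pos t m => R u.1) := by
  intro u hu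
  rw [mem_shorts] at hu
  unfold ext
  split_ifs with h1
  · rfl
  · refine h u ?_
    rcases lt_max_iff.1 hu with h2 | h2 <;> omega

theorem sc_sub {t m : ℕ} (Λ : Oracle) (ω : Pos t m → Bool) : sc Λ ω ⊆ cyl Λ t := by
  intro R h u hu
  rw [h u (mem_shorts.2 (lt_max_of_lt_left hu)), ext_of_lt Λ ω hu]

theorem ranO_union {t m : ℕ} (Λ : Oracle) (F : Finset (Pos t m → Bool)) :
    ranO (⋃ ω ∈ F, sc Λ ω) = (F.card : ENNReal) * (2⁻¹ : ENNReal) ^ (shorts (max t m)).card := by
  rw [measure_biUnion_finset (fun a _ b _ h => sc_disj Λ h) (fun _ _ => meas_fixS _ _)]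
  have h1 : ∀ ω ∈ F, ranO (sc Λ ω) = (2⁻¹ : ENNReal) ^ (shorts (max t m)).card :=
    fun ω _ => ranO_fixS _ _
  rw [Finset.sum_congr rfl h1, Finset.sum_const, nsmul_eq_mul]

open Classical in
theorem cyl_inter {t m : ℕ} (Λ : Oracle) (P : Oracle → Prop)
    (hP : ∀ R R' : Oracle, (∀ u : List Bool, u.length < m → R u = R' u) → (P R ↔ P R')) :
    cyl Λ t ∩ {R | P R} =
      ⋃ ω ∈ (Finset.univ.filter fun ω : Pos t m → Bool => P (ext Λ ω)), sc Λ ω := by
  have key : ∀ (R : Oracle) (ω : Pos t m → Bool), R ∈ sc Λ ω → (P R ↔ P (ext Λ ω)) :=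
    fun R ω h => hP _ _ fun u hu => h u (mem_shorts.2 (lt_max_of_lt_right hu))
  ext R
  simp only [Set.mem_inter_iff, Set.mem_setOf_eq, Set.mem_iUnion, Finset.mem_filter,
    Finset.mem_univ, true_and, exists_prop]
  constructor
  · rintro ⟨h1, h2⟩
    exact ⟨_, (key R _ (mem_sc h1)).1 h2, mem_sc h1⟩
  · rintro ⟨ω, h1, h2⟩
    exact ⟨sc_sub Λ ω h2, (key R ω h2).2 h1⟩

theorem p_win : P_win := by
  classical
  intro Λ t m P hP
  have h1 := cyl_inter (t := t) Λ P hP
  have h2 := cyl_inter (t := t) (m := m) Λ (fun _ => True) (fun _ _ _ => Iff.rfl)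
  simp only [Set.setOf_true, Set.inter_univ, Finset.filter_true] at h2
  rw [h1, h2, ranO_union, ranO_union]
  unfold prob
  have h3 : (Nat.card {ω : Pos t m → Bool // P (ext Λ ω)} : ℝ) =
      ((Finset.univ.filter fun ω : Pos t m → Bool => P (ext Λ ω)).card : ℝ) := by
    rw [Nat.card_eq_fintype_card, Fintype.card_subtype]
  rw [h3, ← mul_assoc]
  congr 1
  rw [ENNReal.ofReal_div_of_pos (by exact_mod_cast Fintype.card_pos), ENNReal.ofReal_natCast,
    ENNReal.ofReal_natCast, Finset.card_univ]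
  rw [ENNReal.div_mul_cancel]
  · exact_mod_cast Fintype.card_pos.ne'
  · exact ENNReal.natCast_ne_top _

theorem ranO_cyl_pos (Λ : Oracle) (t : ℕ) : 0 < ranO (cyl Λ t) := by
  rw [cyl_eq, ranO_fixS]
  exact ENNReal.pow_pos (by simp) _

theorem closed_local (m : ℕ) (P : Oracle → Prop)
    (hP : ∀ R R' : Oracle, (∀ u : List Bool, u.length < m → R u = R' u) → (P R ↔ P R')) :
    IsClosed {R | P R} := by
  haveI : Finite {u : List Bool // u.length < m} := (List.finite_length_lt Bool m).to_subtype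
  let f : Oracle → ({u : List Bool // u.length < m} → Bool) := fun R u => R u.1
  have hf : Continuous f := continuous_pi fun u => continuous_apply _
  have h1 : {R | P R} = f ⁻¹' {g | ∃ R, f R = g ∧ P R} := by
    ext R
    simp only [Set.mem_setOf_eq, Set.mem_preimage]
    constructor
    · intro h
      exact ⟨R, rfl, h⟩
    · rintro ⟨R', h2, h3⟩
      refine (hP R' R fun u hu => ?_).1 h3
      exact congrFun h2 ⟨u, hu⟩
  rw [h1]
  exact (isClosed_discrete _).preimage hf

theorem p_top : P_top := ⟨ranO_cyl_pos, closed_local⟩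

/-- the neighbourhoods of `S` -/
def nb (S : Set Oracle) (t : ℕ) : Set Oracle :=
  {R | ∃ R' ∈ S, ∀ u : List Bool, u.length < t → R u = R' u}

theorem nb_closed (S : Set Oracle) (t : ℕ) : IsClosed (nb S t) := by
  refine closed_local t _ fun R R' h => ?_
  constructor
  · rintro ⟨R₁, h1, h2⟩
    exact ⟨R₁, h1, fun u hu => by rw [← h u hu]; exact h2 u hu⟩
  · rintro ⟨R₁, h1, h2⟩
    exact ⟨R₁, h1, fun u hu => by rw [h u hu]; exact h2 u hu⟩

theorem nb_anti (S : Set Oracle) : Antitone (nb S) := by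
  rintro s t hst R ⟨R', h1, h2⟩
  exact ⟨R', h1, fun u hu => h2 u (hu.trans_le hst)⟩

theorem nb_iInter {S : Set Oracle} (hS : IsClosed S) : ⋂ t, nb S t = S := by
  apply Set.Subset.antisymm
  · intro R hR
    rw [Set.mem_iInter] at hR
    choose R' h1 h2 using hR
    refine hS.mem_of_tendsto (f := R') (b := atTop) ?_ (Eventually.of_forall h1)
    rw [tendsto_pi_nhds]
    intro u
    refine tendsto_const_nhds.congr' ?_
    filter_upwards [eventually_gt_atTop u.length] with t ht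
    exact h2 t u ht
  · intro R hR
    rw [Set.mem_iInter]
    exact fun t => ⟨R, hR, fun _ _ => rfl⟩

theorem p_dens : P_dens := by
  classical
  intro S hS hpos
  haveI : OpensMeasurableSpace Oracle := inferInstanceAs (OpensMeasurableSpace (List Bool → Bool))
  have hnm : ∀ t, MeasurableSet (nb S t) := fun t => (nb_closed S t).measurableSet
  have hlim : Tendsto (fun t => ranO (nb S t)) atTop (𝓝 (ranO S)) := by
    have h1 := tendsto_measure_iInter_atTop (μ := ranO) (s := nb S)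
      (fun t => (hnm t).nullMeasurableSet) (nb_anti S) ⟨0, measure_ne_top _ _⟩
    rwa [nb_iInter hS] at h1
  have htop : ranO S ≠ ⊤ := measure_ne_top _ _
  have hlim2 : Tendsto (fun t => ENNReal.ofReal (99 / 100) * ranO (nb S t)) atTop
      (𝓝 (ENNReal.ofReal (99 / 100) * ranO S)) :=
    ENNReal.Tendsto.const_mul hlim (Or.inr ENNReal.ofReal_ne_top)
  have hlt : ENNReal.ofReal (99 / 100) * ranO S < ranO S := by
    have h1 : ENNReal.ofReal (99 / 100) < 1 := by
      rw [← ENNReal.ofReal_one]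
      exact (ENNReal.ofReal_lt_ofReal_iff (by norm_num)).2 (by norm_num)
    calc ENNReal.ofReal (99 / 100) * ranO S < 1 * ranO S :=
          ENNReal.mul_lt_mul_left hpos.ne' htop h1
      _ = ranO S := one_mul _
  obtain ⟨t₀, ht₀⟩ := eventually_atTop.1 (hlim2.eventually_lt_const hlt)
  refine ⟨t₀, fun t ht => ?_⟩
  by_contra hcon
  push Not at hcon
  have h3 := ht₀ t ht
  let Λ₀ : Oracle := fun _ => false
  let c : (Pos 0 t → Bool) → Set Oracle := fun ω => cyl (ext Λ₀ ω) t
  have hc : ∀ (R : Oracle), R ∈ c (fun u => R u.1) := by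
    intro R u hu
    change R u = ext Λ₀ (fun u : Pos 0 t => R u.1) u
    unfold ext
    rw [dif_pos ⟨Nat.zero_le _, hu⟩]
  have hdisj : ∀ ω ω' : Pos 0 t → Bool, ω ≠ ω' → Disjoint (c ω) (c ω') := by
    intro ω ω' h
    rw [Set.disjoint_left]
    intro R h1 h2
    apply h
    funext u
    rw [← ext_pos Λ₀ ω u, ← ext_pos Λ₀ ω' u, ← h1 _ u.2.2, ← h2 _ u.2.2]
  let F : Finset (Pos 0 t → Bool) := Finset.univ.filter fun ω => (c ω ∩ S).Nonempty
  have hU : nb S t = ⋃ ω ∈ F, c ω := by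
    ext R
    simp only [Set.mem_iUnion, exists_prop, F, Finset.mem_filter, Finset.mem_univ, true_and]
    constructor
    · rintro ⟨R', h1, h2⟩
      refine ⟨fun u => R u.1, ⟨R', ?_, h1⟩, hc R⟩
      intro u hu
      rw [← h2 u hu]
      exact hc R u hu
    · rintro ⟨ω, ⟨R', h1, h2⟩, h4⟩
      refine ⟨R', h2, fun u hu => ?_⟩
      rw [h4 u hu, h1 u hu]
  have hSU : S ⊆ ⋃ ω ∈ F, (c ω ∩ S) := by
    intro R hR
    simp only [Set.mem_iUnion, exists_prop, F, Finset.mem_filter, Finset.mem_univ, true_and]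
    exact ⟨fun u => R u.1, ⟨R, hc R, hR⟩, hc R, hR⟩
  have h4 : ranO S ≤ ENNReal.ofReal (99 / 100) * ranO (nb S t) := by
    calc ranO S ≤ ranO (⋃ ω ∈ F, (c ω ∩ S)) := measure_mono hSU
      _ ≤ ∑ ω ∈ F, ranO (c ω ∩ S) := measure_biUnion_finset_le _ _
      _ ≤ ∑ ω ∈ F, ENNReal.ofReal (99 / 100) * ranO (c ω) :=
        Finset.sum_le_sum fun ω _ => (hcon (ext Λ₀ ω)).le
      _ = ENNReal.ofReal (99 / 100) * ∑ ω ∈ F, ranO (c ω) := by rw [Finset.mul_sum]
      _ = ENNReal.ofReal (99 / 100) * ranO (nb S t) := by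
        rw [hU, measure_biUnion_finset (fun a _ b _ h => hdisj a b h)
          (fun _ _ => meas_cyl _ _)]
  exact absurd h3 (not_lt.2 h4)

end Pool.Agent.W2helper24.PK
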